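import Pool.Agent.Q188.BF.Main

/-!
# Existence of the universal group C*-algebra
-/

set_option autoImplicit false
set_option linter.unusedSectionVars false

open scoped ComplexConjugate ENNReal

namespace Pool.Agent.Q188.BF

lemma exists_near (G : Type) [Group G] (x : G →₀ ℂ) (n : ℕ) :
    ∃ (E : Type) (_ : NormedAddCommGroup E) (_ : InnerProductSpace ℂ E) (_ : CompleteSpace E)
      (_ : Nontrivial E) (π : G →* unitary (E →L[ℂ] E)),
      unorm x - 1 / ((n : ℝ) + 1) < ‖x.sum fun g c => c • (π g : E →L[ℂ] E)‖ := by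
  have hpos : (0 : ℝ) < 1 / ((n : ℝ) + 1) := by positivity
  have hlt : unorm x - 1 / ((n : ℝ) + 1) < unorm x := by linarith
  have hne : {r : ℝ | ∃ (E : Type) (_ : NormedAddCommGroup E) (_ : InnerProductSpace ℂ E)
    (_ : CompleteSpace E) (π : G →* unitary (E →L[ℂ] E)),
    r = ‖x.sum fun g c => c • (π g : E →L[ℂ] E)‖}.Nonempty :=
    ⟨_, ℂ, inferInstance, inferInstance, inferInstance, 1, rfl⟩
  obtain ⟨_, ⟨E, i1, i2, i3, π, rfl⟩, h⟩ := exists_lt_of_lt_csSup hne hlt
  rcases subsingleton_or_nontrivial E with hE | hE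
  · refine ⟨ℂ, inferInstance, inferInstance, inferInstance, inferInstance, 1, ?_⟩
    have h0 : ‖x.sum fun g c => c • (π g : E →L[ℂ] E)‖ = 0 := by
      rw [norm_eq_zero]
      ext v
      exact Subsingleton.elim _ _
    rw [h0] at h
    exact h.trans_le (norm_nonneg _)
  · exact ⟨E, i1, i2, i3, hE, π, h⟩

noncomputable instance lpCStar {I : Type} {A : I → Type} [∀ i, CStarAlgebra (A i)]
    [∀ i, Nontrivial (A i)] : CStarAlgebra (lp A ∞) where

/-- a representation with the universal norm generates the universal C*-algebra -/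
theorem exists_of_rep {G B : Type} [Group G] [CStarAlgebra B] (v : G →* unitary B)
    (hv : ∀ x : G →₀ ℂ, ‖x.sum fun g c => c • (v g : B)‖ = unorm x) :
    ∃ (A : Type) (_ : CStarAlgebra A) (u : G →* unitary A), IsUniv u := by
  classical
  set M : Submodule ℂ B := Submodule.span ℂ (Set.range fun g => (v g : B)) with hM
  have hmem : ∀ g, (v g : B) ∈ M := fun g => Submodule.subset_span ⟨g, rfl⟩
  have hone : (1 : B) ∈ M := by
    have := hmem 1
    rwa [map_one] at this
  have hmul : ∀ x y : B, x ∈ M → y ∈ M → x * y ∈ M := by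
    intro x y hx hy
    have h1 : M * M ≤ M := by
      rw [hM, Submodule.span_mul_span]
      refine Submodule.span_mono ?_
      rintro _ ⟨_, ⟨g, rfl⟩, _, ⟨h, rfl⟩, rfl⟩
      exact ⟨g * h, by simp⟩
    exact h1 (Submodule.mul_mem_mul hx hy)
  have hstar : ∀ x : B, x ∈ M → star x ∈ M := by
    intro x hx
    induction hx using Submodule.span_induction with
    | mem x hx =>
      obtain ⟨g, rfl⟩ := hx
      have := hmem g⁻¹
      rw [map_inv] at this
      exact this
    | zero => rw [star_zero]; exact M.zero_mem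
    | add x y _ _ hx hy => rw [star_add]; exact M.add_mem hx hy
    | smul c x _ hx => rw [star_smul]; exact M.smul_mem _ hx
  let S₀ : StarSubalgebra ℂ B :=
    { carrier := M
      mul_mem' := fun {x y} hx hy => hmul x y hx hy
      one_mem' := hone
      add_mem' := fun {x y} hx hy => M.add_mem hx hy
      zero_mem' := M.zero_mem
      algebraMap_mem' := fun c => by
        rw [Algebra.algebraMap_eq_smul_one]
        exact M.smul_mem c hone
      star_mem' := fun {x} hx => hstar x hx }
  let S : StarSubalgebra ℂ B := S₀.topologicalClosure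
  let _ : CStarAlgebra S := StarSubalgebra.cstarAlgebra S (h_closed := S₀.isClosed_topologicalClosure)
  have hSmem : ∀ x ∈ M, x ∈ S := fun x hx => S₀.le_topologicalClosure hx
  let u : G →* unitary S :=
    { toFun := fun g => ⟨⟨(v g : B), hSmem _ (hmem g)⟩, by
        rw [Unitary.mem_iff]
        exact ⟨Subtype.ext (Unitary.coe_star_mul_self (v g)),
          Subtype.ext (Unitary.coe_mul_star_self (v g))⟩⟩
      map_one' := by
        apply Subtype.ext
        apply Subtype.ext
        simp
      map_mul' := fun g h => by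
        apply Subtype.ext
        apply Subtype.ext
        simp }
  have hcoe : ∀ x : G →₀ ℂ, ((x.sum fun g c => c • (u g : S) : S) : B) =
      x.sum fun g c => c • (v g : B) := by
    intro x
    simp only [Finsupp.sum]
    rw [AddSubmonoidClass.coe_finsetSum]
    rfl
  refine ⟨S, inferInstance, u, ?_, ?_⟩
  · rw [Metric.dense_iff]
    intro x r hr
    have hx : (x : B) ∈ closure (M : Set B) := x.2
    obtain ⟨d, hd, hdx⟩ := Metric.mem_closure_iff.mp hx r hr
    obtain ⟨c, hc⟩ := (Finsupp.mem_span_range_iff_exists_finsupp).mp hd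
    refine ⟨c.sum fun g z => z • (u g : S), ?_, ?_⟩
    · rw [Metric.mem_ball, Subtype.dist_eq, hcoe, hc, dist_comm]
      exact hdx
    · exact (Finsupp.mem_span_range_iff_exists_finsupp).mpr ⟨c, rfl⟩
  · intro x
    rw [← hv, ← hcoe]
    rfl

theorem exists_univ (G : Type) [Group G] :
    ∃ (A : Type) (_ : CStarAlgebra A) (u : G →* unitary A), IsUniv u := by
  classical
  choose E i1 i2 i3 i4 π hπ using fun i : (G →₀ ℂ) × ℕ => exists_near G i.1 i.2
  let B := lp (fun i => E i →L[ℂ] E i) ∞
  have hWm : ∀ g, Memℓp (fun i => (π i g : E i →L[ℂ] E i)) ∞ := fun g => memℓp_infty ⟨1, by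
    rintro _ ⟨i, rfl⟩
    exact norm_unitary_le _⟩
  let W : G → B := fun g => ⟨fun i => (π i g : E i →L[ℂ] E i), hWm g⟩
  have hWi : ∀ g i, (W g : ∀ i, E i →L[ℂ] E i) i = (π i g : E i →L[ℂ] E i) := fun g i => rfl
  have hW1 : W 1 = 1 := by
    apply lp.ext
    funext i
    rw [hWi, lp.infty_coeFn_one, map_one]
    rfl
  have hWmul : ∀ g h, W (g * h) = W g * W h := by
    intro g h
    apply lp.ext
    funext i
    rw [hWi, lp.infty_coeFn_mul, Pi.mul_apply, hWi, hWi, map_mul]
    rfl
  have hWstar : ∀ g, star (W g) = W g⁻¹ := by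
    intro g
    apply lp.ext
    funext i
    rw [hWi, lp.coeFn_star, Pi.star_apply, hWi, map_inv]
    rfl
  let v : G →* unitary B :=
    { toFun := fun g => ⟨W g, by
        rw [Unitary.mem_iff, hWstar, ← hWmul, ← hWmul, inv_mul_cancel, mul_inv_cancel, hW1]
        exact ⟨rfl, rfl⟩⟩
      map_one' := Subtype.ext hW1
      map_mul' := fun g h => Subtype.ext (hWmul g h) }
  refine exists_of_rep v fun x => ?_
  have hval : ∀ i, ((x.sum fun g c => c • (v g : B) : B) : ∀ i, E i →L[ℂ] E i) i =
      x.sum fun g c => c • (π i g : E i →L[ℂ] E i) := by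
    intro i
    simp only [Finsupp.sum]
    rw [lp.coeFn_sum, Finset.sum_apply]
    refine Finset.sum_congr rfl fun g _ => ?_
    rw [lp.coeFn_smul, Pi.smul_apply]
    rfl
  refine le_antisymm ?_ ?_
  · refine lp.norm_le_of_forall_le ?_ fun i => ?_
    · exact (norm_nonneg _).trans (le_unorm x (E := ℂ) 1)
    · rw [hval]
      exact le_unorm x (π i)
  · refine le_of_forall_pos_le_add fun ε hε => ?_
    obtain ⟨n, hn⟩ := exists_nat_one_div_lt hε
    have h1 := hπ (x, n)
    have h2 := lp.norm_apply_le_norm ENNReal.top_ne_zero (x.sum fun g c => c • (v g : B)) (x, n)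
    rw [hval] at h2
    simp only at h1 h2
    linarith

end Pool.Agent.Q188.BF
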