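import Mathlib

/-!
# Continuous logic for unital C*-algebras: terms, formulas, values, uniform continuity
-/

set_option autoImplicit false
set_option linter.unusedSectionVars false

namespace Pool.Agent.Q188.BF

/-- Terms: `*`-polynomials with complex coefficients in `n` noncommuting variables. -/
inductive Tm (n : ℕ) : Type
  | var (i : Fin n) : Tm n
  | one : Tm n
  | add (s t : Tm n) : Tm n
  | mul (s t : Tm n) : Tm n
  | adj (s : Tm n) : Tm n
  | scal (c : ℂ) (s : Tm n) : Tm n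

/-- The value of a term. -/
noncomputable def Tm.val {A : Type} [CStarAlgebra A] {n : ℕ} (x : Fin n → A) : Tm n → A
  | .var i => x i
  | .one => 1
  | .add s t => s.val x + t.val x
  | .mul s t => s.val x * t.val x
  | .adj s => star (s.val x)
  | .scal c s => c • s.val x

/-- Formulas with `n` free variables. -/
inductive Fm : ℕ → Type
  | nrm {n : ℕ} (t : Tm n) : Fm n
  | conn {n k : ℕ} (u : C(Fin k → ℝ, ℝ)) (φ : Fin k → Fm n) : Fm n
  | sup {n : ℕ} (r : ℕ) (φ : Fm (n + 1)) : Fm n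
  | inf {n : ℕ} (r : ℕ) (φ : Fm (n + 1)) : Fm n

/-- The value of a formula. -/
noncomputable def Fm.val (A : Type) [CStarAlgebra A] : {n : ℕ} → Fm n → (Fin n → A) → ℝ
  | _, .nrm t, x => ‖t.val x‖
  | _, .conn u φ, x => u fun i => (φ i).val A x
  | _, .sup r φ, x => ⨆ y : {y : A // ‖y‖ ≤ r}, φ.val A (Fin.cons y.1 x)
  | _, .inf r φ, x => ⨅ y : {y : A // ‖y‖ ≤ r}, φ.val A (Fin.cons y.1 x)

/-- quantifier depth -/
def Fm.depth : {n : ℕ} → Fm n → ℕ
  | _, .nrm _ => 0
  | _, .conn _ φ => Finset.univ.sup fun i => (φ i).depth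
  | _, .sup _ φ => φ.depth + 1
  | _, .inf _ φ => φ.depth + 1

variable {A : Type} [CStarAlgebra A]

instance (r : ℕ) : Nonempty {y : A // ‖y‖ ≤ r} := ⟨⟨0, by simp⟩⟩

lemma Tm.lip {n : ℕ} (t : Tm n) (R : ℝ) (hR : 0 ≤ R) : ∃ C : ℝ, 0 ≤ C ∧
    (∀ x : Fin n → A, ‖x‖ ≤ R → ‖t.val x‖ ≤ C) ∧
    ∀ x y : Fin n → A, ‖x‖ ≤ R → ‖y‖ ≤ R → ‖t.val x - t.val y‖ ≤ C * ‖x - y‖ := by
  induction t with
  | var i =>
    refine ⟨max R 1, le_max_of_le_left hR, fun x hx => ?_, fun x y _ _ => ?_⟩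
    · exact ((norm_le_pi_norm x i).trans hx).trans (le_max_left _ _)
    · have h1 := norm_le_pi_norm (x - y) i
      have h2 : ‖x - y‖ ≤ max R 1 * ‖x - y‖ := by
        have := mul_le_mul_of_nonneg_right (le_max_right R 1) (norm_nonneg (x - y))
        rwa [one_mul] at this
      exact (show ‖x i - y i‖ ≤ ‖x - y‖ from h1).trans h2
  | one =>
    refine ⟨‖(1 : A)‖, norm_nonneg _, fun x _ => le_rfl, fun x y _ _ => ?_⟩
    simp only [Tm.val, sub_self, norm_zero]
    positivity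
  | add s t hs ht =>
    obtain ⟨C, hC, h1, h2⟩ := hs
    obtain ⟨D, hD, h3, h4⟩ := ht
    refine ⟨C + D, by positivity, fun x hx => ?_, fun x y hx hy => ?_⟩
    · exact (norm_add_le _ _).trans (add_le_add (h1 x hx) (h3 x hx))
    · simp only [Tm.val]
      rw [add_sub_add_comm, add_mul]
      exact (norm_add_le _ _).trans (add_le_add (h2 x y hx hy) (h4 x y hx hy))
  | mul s t hs ht =>
    obtain ⟨C, hC, h1, h2⟩ := hs
    obtain ⟨D, hD, h3, h4⟩ := ht
    refine ⟨2 * (C * D), by positivity, fun x hx => ?_, fun x y hx hy => ?_⟩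
    · simp only [Tm.val]
      have := (norm_mul_le (s.val x) (t.val x)).trans
        (mul_le_mul (h1 x hx) (h3 x hx) (norm_nonneg _) hC)
      have h5 : 0 ≤ C * D := by positivity
      linarith
    · simp only [Tm.val]
      have h5 : s.val x * t.val x - s.val y * t.val y =
          s.val x * (t.val x - t.val y) + (s.val x - s.val y) * t.val y := by noncomm_ring
      rw [h5]
      have h6 : ‖s.val x * (t.val x - t.val y)‖ ≤ C * (D * ‖x - y‖) :=
        (norm_mul_le _ _).trans (mul_le_mul (h1 x hx) (h4 x y hx hy) (norm_nonneg _) hC)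
      have h7 : ‖(s.val x - s.val y) * t.val y‖ ≤ (C * ‖x - y‖) * D :=
        (norm_mul_le _ _).trans (mul_le_mul (h2 x y hx hy) (h3 y hy) (norm_nonneg _)
          (by positivity))
      calc _ ≤ C * (D * ‖x - y‖) + (C * ‖x - y‖) * D := (norm_add_le _ _).trans (add_le_add h6 h7)
        _ = _ := by ring
  | adj s hs =>
    obtain ⟨C, hC, h1, h2⟩ := hs
    refine ⟨C, hC, fun x hx => ?_, fun x y hx hy => ?_⟩
    · simp only [Tm.val, norm_star]
      exact h1 x hx
    · simp only [Tm.val]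
      rw [← star_sub, norm_star]
      exact h2 x y hx hy
  | scal c s hs =>
    obtain ⟨C, hC, h1, h2⟩ := hs
    refine ⟨‖c‖ * C, by positivity, fun x hx => ?_, fun x y hx hy => ?_⟩
    · simp only [Tm.val, norm_smul]
      exact mul_le_mul_of_nonneg_left (h1 x hx) (norm_nonneg _)
    · simp only [Tm.val]
      rw [← smul_sub, norm_smul, mul_assoc]
      exact mul_le_mul_of_nonneg_left (h2 x y hx hy) (norm_nonneg _)

lemma norm_cons_le {n : ℕ} {y : A} {x : Fin n → A} {R : ℝ} {r : ℕ} (hy : ‖y‖ ≤ r) (hx : ‖x‖ ≤ R) :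
    ‖(Fin.cons y x : Fin (n + 1) → A)‖ ≤ max (r : ℝ) R := by
  have h0 : (0 : ℝ) ≤ max (r : ℝ) R := le_max_of_le_left (Nat.cast_nonneg _)
  rw [pi_norm_le_iff_of_nonneg h0]
  intro i
  refine Fin.cases ?_ (fun j => ?_) i
  · simpa using Or.inl hy
  · have := (norm_le_pi_norm x j).trans hx
    rw [Fin.cons_succ]
    exact this.trans (le_max_right _ _)

lemma norm_cons_sub_le {n : ℕ} {y : A} {x x' : Fin n → A} :
    ‖(Fin.cons y x - Fin.cons y x' : Fin (n + 1) → A)‖ ≤ ‖x - x'‖ := by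
  rw [pi_norm_le_iff_of_nonneg (norm_nonneg _)]
  intro i
  refine Fin.cases ?_ (fun j => ?_) i
  · simp
  · rw [Pi.sub_apply, Fin.cons_succ, Fin.cons_succ]
    exact norm_le_pi_norm (x - x') j

lemma norm_cons_sub_le' {n : ℕ} {y y' : A} {x : Fin n → A} :
    ‖(Fin.cons y x - Fin.cons y' x : Fin (n + 1) → A)‖ ≤ ‖y - y'‖ := by
  rw [pi_norm_le_iff_of_nonneg (norm_nonneg _)]
  intro i
  refine Fin.cases ?_ (fun j => ?_) i
  · simp
  · simp

/-- values of formulas are bounded and uniformly continuous on bounded sets -/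
theorem Fm.uc {n : ℕ} (φ : Fm n) : ∀ R : ℝ, 0 ≤ R →
    (∃ C : ℝ, 0 ≤ C ∧ ∀ x : Fin n → A, ‖x‖ ≤ R → |φ.val A x| ≤ C) ∧
    ∀ ε : ℝ, 0 < ε → ∃ δ : ℝ, 0 < δ ∧ ∀ x y : Fin n → A, ‖x‖ ≤ R → ‖y‖ ≤ R → ‖x - y‖ ≤ δ →
      |φ.val A x - φ.val A y| ≤ ε := by
  induction φ with
  | nrm t =>
    intro R hR
    obtain ⟨C, hC, h1, h2⟩ := t.lip (A := A) R hR
    refine ⟨⟨C, hC, fun x hx => ?_⟩, fun ε hε => ⟨ε / (C + 1), by positivity, ?_⟩⟩
    · simp only [Fm.val, abs_norm]
      exact h1 x hx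
    · intro x y hx hy hxy
      simp only [Fm.val]
      refine (abs_norm_sub_norm_le _ _).trans ((h2 x y hx hy).trans ?_)
      calc C * ‖x - y‖ ≤ C * (ε / (C + 1)) := mul_le_mul_of_nonneg_left hxy hC
        _ = (C / (C + 1)) * ε := by ring
        _ ≤ 1 * ε := by
          apply mul_le_mul_of_nonneg_right _ hε.le
          rw [div_le_one (by positivity)]
          linarith
        _ = ε := one_mul _
  | @conn n k u φ ih =>
    intro R hR
    choose hb hu using fun i => ih i R hR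
    choose C hC hC' using hb
    set B : ℝ := ∑ i, C i with hB
    have hB0 : 0 ≤ B := Finset.sum_nonneg fun i _ => hC i
    have hle : ∀ i, C i ≤ B := fun i => Finset.single_le_sum (fun j _ => hC j) (Finset.mem_univ i)
    have hin : ∀ x : Fin n → A, ‖x‖ ≤ R → (fun i => (φ i).val A x) ∈
        Metric.closedBall (0 : Fin k → ℝ) B := by
      intro x hx
      rw [mem_closedBall_zero_iff, pi_norm_le_iff_of_nonneg hB0]
      intro i
      exact (hC' i x hx).trans (hle i)
    have hcomp : IsCompact (Metric.closedBall (0 : Fin k → ℝ) B) := isCompact_closedBall _ _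
    refine ⟨?_, fun ε hε => ?_⟩
    · obtain ⟨D, hD⟩ := hcomp.exists_bound_of_continuousOn u.continuous.continuousOn
      refine ⟨|D|, abs_nonneg _, fun x hx => ?_⟩
      simp only [Fm.val]
      exact (hD _ (hin x hx)).trans (le_abs_self D)
    · have huc := hcomp.uniformContinuousOn_of_continuous u.continuous.continuousOn
      rw [Metric.uniformContinuousOn_iff_le] at huc
      obtain ⟨η, hη, hη'⟩ := huc ε hε
      choose δ hδ hδ' using fun i => hu i η hη
      rcases Nat.eq_zero_or_pos k with hk | hk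
      · subst hk
        refine ⟨1, one_pos, fun x y _ _ _ => ?_⟩
        simp only [Fm.val]
        have : (fun i => (φ i).val A x) = fun i => (φ i).val A y := by
          funext i
          exact i.elim0
        rw [this, sub_self, abs_zero]
        exact hε.le
      · have hne : (Finset.univ : Finset (Fin k)).Nonempty := ⟨⟨0, hk⟩, Finset.mem_univ _⟩
        refine ⟨Finset.univ.inf' hne δ, ?_, fun x y hx hy hxy => ?_⟩
        · rw [Finset.lt_inf'_iff]
          exact fun i _ => hδ i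
        · simp only [Fm.val]
          have := hη' _ (hin x hx) _ (hin y hy) (by
            rw [dist_eq_norm, pi_norm_le_iff_of_nonneg hη.le]
            intro i
            exact hδ' i x y hx hy (hxy.trans (Finset.inf'_le _ (Finset.mem_univ i))))
          rwa [Real.dist_eq] at this
  | @sup n r φ ih =>
    intro R hR
    obtain ⟨⟨C, hC, hC'⟩, hu⟩ := ih (max r R) (le_max_of_le_right hR)
    have hb : ∀ x : Fin n → A, ‖x‖ ≤ R → ∀ y : {y : A // ‖y‖ ≤ r},
        |φ.val A (Fin.cons y.1 x)| ≤ C := fun x hx y => hC' _ (norm_cons_le y.2 hx)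
    have hbdd : ∀ x : Fin n → A, ‖x‖ ≤ R →
        BddAbove (Set.range fun y : {y : A // ‖y‖ ≤ r} => φ.val A (Fin.cons y.1 x)) := by
      rintro x hx
      refine ⟨C, ?_⟩
      rintro _ ⟨y, rfl⟩
      exact (abs_le.mp (hb x hx y)).2
    refine ⟨⟨C, hC, fun x hx => ?_⟩, fun ε hε => ?_⟩
    · simp only [Fm.val]
      rw [abs_le]
      constructor
      · have y0 : {y : A // ‖y‖ ≤ r} := Classical.arbitrary _
        exact (abs_le.mp (hb x hx y0)).1.trans (le_ciSup (hbdd x hx) y0)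
      · exact ciSup_le fun y => (abs_le.mp (hb x hx y)).2
    · obtain ⟨δ, hδ, hδ'⟩ := hu ε hε
      refine ⟨δ, hδ, ?_⟩
      have key : ∀ x y : Fin n → A, ‖x‖ ≤ R → ‖y‖ ≤ R → ‖x - y‖ ≤ δ →
          (Fm.sup r φ).val A x ≤ (Fm.sup r φ).val A y + ε := by
        intro x y hx hy hxy
        simp only [Fm.val]
        refine ciSup_le fun z => ?_
        have h1 := hδ' _ _ (norm_cons_le z.2 hx) (norm_cons_le z.2 hy)
          (norm_cons_sub_le.trans hxy)
        have h2 := le_ciSup (hbdd y hy) z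
        have h3 := (abs_le.mp h1).2
        linarith
      intro x y hx hy hxy
      have h1 := key x y hx hy hxy
      have h2 := key y x hy hx (by rwa [norm_sub_rev])
      rw [abs_le]
      constructor <;> linarith
  | @inf n r φ ih =>
    intro R hR
    obtain ⟨⟨C, hC, hC'⟩, hu⟩ := ih (max r R) (le_max_of_le_right hR)
    have hb : ∀ x : Fin n → A, ‖x‖ ≤ R → ∀ y : {y : A // ‖y‖ ≤ r},
        |φ.val A (Fin.cons y.1 x)| ≤ C := fun x hx y => hC' _ (norm_cons_le y.2 hx)
    have hbdd : ∀ x : Fin n → A, ‖x‖ ≤ R →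
        BddBelow (Set.range fun y : {y : A // ‖y‖ ≤ r} => φ.val A (Fin.cons y.1 x)) := by
      rintro x hx
      refine ⟨-C, ?_⟩
      rintro _ ⟨y, rfl⟩
      exact (abs_le.mp (hb x hx y)).1
    refine ⟨⟨C, hC, fun x hx => ?_⟩, fun ε hε => ?_⟩
    · simp only [Fm.val]
      rw [abs_le]
      constructor
      · exact le_ciInf fun y => (abs_le.mp (hb x hx y)).1
      · have y0 : {y : A // ‖y‖ ≤ r} := Classical.arbitrary _
        exact (ciInf_le (hbdd x hx) y0).trans (abs_le.mp (hb x hx y0)).2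
    · obtain ⟨δ, hδ, hδ'⟩ := hu ε hε
      refine ⟨δ, hδ, ?_⟩
      have key : ∀ x y : Fin n → A, ‖x‖ ≤ R → ‖y‖ ≤ R → ‖x - y‖ ≤ δ →
          (Fm.inf r φ).val A x - ε ≤ (Fm.inf r φ).val A y := by
        intro x y hx hy hxy
        simp only [Fm.val]
        refine le_ciInf fun z => ?_
        have h1 := hδ' _ _ (norm_cons_le z.2 hx) (norm_cons_le z.2 hy)
          (norm_cons_sub_le.trans hxy)
        have h2 := ciInf_le (hbdd x hx) z
        have h3 := (abs_le.mp h1).2
        linarith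
      intro x y hx hy hxy
      have h1 := key x y hx hy hxy
      have h2 := key y x hy hx (by rwa [norm_sub_rev])
      rw [abs_le]
      constructor <;> linarith

/-- approximation of a point of the ball by points of a dense set that is closed under scaling -/
lemma exists_approx (D : Set A) (hD : Dense D) (hsm : ∀ (c : ℝ) (d : A), d ∈ D → (c : ℂ) • d ∈ D)
    {r : ℕ} {y : A} (hy : ‖y‖ ≤ r) {δ : ℝ} (hδ : 0 < δ) :
    ∃ d ∈ D, ‖d‖ ≤ r ∧ ‖y - d‖ ≤ δ := by
  obtain ⟨d, hd, hdy⟩ := Metric.dense_iff.mp hD y (δ / 2) (by positivity)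
  rw [Metric.mem_ball, dist_eq_norm] at hd
  have hdr : ‖d‖ ≤ r + δ / 2 := by
    have := norm_add_le (d - y) y
    rw [sub_add_cancel] at this
    linarith
  set c : ℝ := r / (r + δ / 2) with hc
  have hr0 : (0 : ℝ) ≤ r := Nat.cast_nonneg _
  have hpos : 0 < (r : ℝ) + δ / 2 := by positivity
  have hc0 : 0 ≤ c := by positivity
  have hc1 : c ≤ 1 := by
    rw [hc, div_le_one hpos]
    linarith
  have hnc : ‖((c : ℂ))‖ = c := by rw [Complex.norm_real, Real.norm_of_nonneg hc0]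
  refine ⟨(c : ℂ) • d, hsm c d hdy, ?_, ?_⟩
  · rw [norm_smul, hnc, hc]
    calc (r : ℝ) / (r + δ / 2) * ‖d‖ ≤ r / (r + δ / 2) * (r + δ / 2) := by gcongr
      _ = r := by field_simp
  · have h1 : y - (c : ℂ) • d = (y - d) + ((1 - c : ℝ) : ℂ) • d := by
      push_cast
      rw [sub_smul, one_smul]
      abel
    rw [h1]
    refine (norm_add_le _ _).trans ?_
    have h2 : ‖((1 - c : ℝ) : ℂ) • d‖ ≤ δ / 2 := by
      rw [norm_smul, Complex.norm_real, Real.norm_of_nonneg (by linarith)]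
      have h3 : 1 - c = (δ / 2) / (r + δ / 2) := by
        rw [hc]
        field_simp
        ring
      rw [h3]
      calc δ / 2 / (r + δ / 2) * ‖d‖ ≤ δ / 2 / (r + δ / 2) * (r + δ / 2) := by gcongr
        _ = δ / 2 := by field_simp
    rw [norm_sub_rev] at hd
    linarith

/-- approximation of the values of a formula at points of the ball -/
lemma Fm.approx {n : ℕ} (φ : Fm (n + 1)) (D : Set A) (hD : Dense D)
    (hsm : ∀ (c : ℝ) (d : A), d ∈ D → (c : ℂ) • d ∈ D) (x : Fin n → A)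
    {r : ℕ} {y : A} (hy : ‖y‖ ≤ r) {ε : ℝ} (hε : 0 < ε) :
    ∃ d ∈ D, ‖d‖ ≤ r ∧ |φ.val A (Fin.cons y x) - φ.val A (Fin.cons d x)| ≤ ε := by
  obtain ⟨-, hu⟩ := φ.uc (A := A) (max r ‖x‖) (le_max_of_le_left (Nat.cast_nonneg _))
  obtain ⟨δ, hδ, hδ'⟩ := hu ε hε
  obtain ⟨d, hd, hdr, hyd⟩ := exists_approx D hD hsm hy hδ
  exact ⟨d, hd, hdr, hδ' _ _ (norm_cons_le hy le_rfl) (norm_cons_le hdr le_rfl)
    (norm_cons_sub_le'.trans hyd)⟩

/-- boundedness of the values over a ball -/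
lemma Fm.bddAbove {n : ℕ} (φ : Fm (n + 1)) (x : Fin n → A) (r : ℕ) :
    BddAbove (Set.range fun y : {y : A // ‖y‖ ≤ r} => φ.val A (Fin.cons y.1 x)) := by
  obtain ⟨⟨C, -, hC⟩, -⟩ := φ.uc (A := A) (max r ‖x‖) (le_max_of_le_left (Nat.cast_nonneg _))
  refine ⟨C, ?_⟩
  rintro _ ⟨y, rfl⟩
  exact (abs_le.mp (hC _ (norm_cons_le y.2 le_rfl))).2

lemma Fm.bddBelow {n : ℕ} (φ : Fm (n + 1)) (x : Fin n → A) (r : ℕ) :
    BddBelow (Set.range fun y : {y : A // ‖y‖ ≤ r} => φ.val A (Fin.cons y.1 x)) := by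
  obtain ⟨⟨C, -, hC⟩, -⟩ := φ.uc (A := A) (max r ‖x‖) (le_max_of_le_left (Nat.cast_nonneg _))
  refine ⟨-C, ?_⟩
  rintro _ ⟨y, rfl⟩
  exact (abs_le.mp (hC _ (norm_cons_le y.2 le_rfl))).1

end Pool.Agent.Q188.BF
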