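import Mathlib
import Pool.Agent.H697R3.NSPD

/-!
# Back-and-forth games on groups and the universal norm
-/

set_option autoImplicit false
set_option linter.unusedSectionVars false

open scoped ComplexOrder ComplexConjugate InnerProductSpace
open Filter Topology

namespace Pool.Agent.Q188.BF

/-- Duplicator wins the `n`-round game from the position `(a, b)` -/
def Win (G H : Type) [Group G] [Group H] : ℕ → (k : ℕ) → (Fin k → G) → (Fin k → H) → Prop
  | 0, k, a, b => ∀ w : FreeGroup (Fin k), FreeGroup.lift a w = 1 ↔ FreeGroup.lift b w = 1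
  | n + 1, k, a, b =>
      (∀ (l : ℕ) (c : Fin l → G), ∃ d : Fin l → H,
        Win G H n (k + l) (Fin.append a c) (Fin.append b d)) ∧
      ∀ (l : ℕ) (d : Fin l → H), ∃ c : Fin l → G,
        Win G H n (k + l) (Fin.append a c) (Fin.append b d)

variable {G H : Type} [Group G] [Group H]

lemma Win.symm {n : ℕ} : ∀ {k : ℕ} {a : Fin k → G} {b : Fin k → H}, Win G H n k a b →
    Win H G n k b a := by
  induction n with
  | zero => intro k a b h w; exact (h w).symm
  | succ n ih =>
    intro k a b h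
    refine ⟨fun l d => ?_, fun l c => ?_⟩
    · obtain ⟨c, hc⟩ := h.2 l d
      exact ⟨c, ih hc⟩
    · obtain ⟨d, hd⟩ := h.1 l c
      exact ⟨d, ih hd⟩

lemma Win.pred {n k : ℕ} {a : Fin k → G} {b : Fin k → H} (h : Win G H (n + 1) k a b) :
    Win G H n k a b := by
  obtain ⟨d, hd⟩ := h.1 0 Fin.elim0
  have h1 : (Fin.append a Fin.elim0 : Fin (k + 0) → G) = a := by
    funext i
    exact Fin.append_left a Fin.elim0 i
  have h2 : (Fin.append b d : Fin (k + 0) → H) = b := by
    funext i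
    exact Fin.append_left b d i
  rw [h1, h2] at hd
  exact hd

lemma Win.one {n k : ℕ} {a : Fin k → G} {b : Fin k → H} (h : Win G H (n + 1) k a b) :
    Win G H 1 k a b := by
  induction n with
  | zero => exact h
  | succ n ih => exact ih h.pred

/-- words in the first variables -/
lemma lift_castAdd {k l : ℕ} (a : Fin k → G) (c : Fin l → G) (w : FreeGroup (Fin k)) :
    FreeGroup.lift (Fin.append a c) (FreeGroup.map (Fin.castAdd l) w) = FreeGroup.lift a w := by
  have h : (FreeGroup.lift (Fin.append a c)).comp (FreeGroup.map (Fin.castAdd l)) =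
      FreeGroup.lift a := by
    ext i
    simp
  exact DFunLike.congr_fun h w

/-- The universal norm on the group algebra. -/
noncomputable def unorm (x : G →₀ ℂ) : ℝ :=
  sSup {r : ℝ | ∃ (E : Type) (_ : NormedAddCommGroup E) (_ : InnerProductSpace ℂ E)
    (_ : CompleteSpace E) (π : G →* unitary (E →L[ℂ] E)),
    r = ‖x.sum fun g c => c • (π g : E →L[ℂ] E)‖}

lemma norm_unitary_le {E : Type} [NormedAddCommGroup E] [InnerProductSpace ℂ E]
    [CompleteSpace E] (u : unitary (E →L[ℂ] E)) : ‖(u : E →L[ℂ] E)‖ ≤ 1 := by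
  refine ContinuousLinearMap.opNorm_le_bound _ zero_le_one fun v => ?_
  rw [one_mul]
  exact (Unitary.norm_map u v).le

lemma unorm_bdd (x : G →₀ ℂ) :
    BddAbove {r : ℝ | ∃ (E : Type) (_ : NormedAddCommGroup E) (_ : InnerProductSpace ℂ E)
    (_ : CompleteSpace E) (π : G →* unitary (E →L[ℂ] E)),
    r = ‖x.sum fun g c => c • (π g : E →L[ℂ] E)‖} := by
  refine ⟨x.sum fun _ c => ‖c‖, ?_⟩
  rintro _ ⟨E, _, _, _, π, rfl⟩
  refine (norm_sum_le _ _).trans (Finset.sum_le_sum fun g _ => ?_)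
  rw [norm_smul]
  exact mul_le_of_le_one_right (norm_nonneg _) (norm_unitary_le _)

lemma le_unorm (x : G →₀ ℂ) {E : Type} [i1 : NormedAddCommGroup E] [i2 : InnerProductSpace ℂ E]
    [i3 : CompleteSpace E] (π : G →* unitary (E →L[ℂ] E)) :
    ‖x.sum fun g c => c • (π g : E →L[ℂ] E)‖ ≤ unorm x :=
  le_csSup (unorm_bdd x) ⟨E, i1, i2, i3, π, rfl⟩

section transfer

variable {k : ℕ} {a : Fin k → G} {b : Fin k → H}

/-- the answers for all finite subsets of `H` -/
lemma exists_answer (hW : ∀ (l : ℕ) (d : Fin l → H), ∃ c : Fin l → G,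
      Win G H 0 (k + l) (Fin.append a c) (Fin.append b d)) :
    ∃ e : Finset H → H → G, (∀ (F : Finset H) (w : FreeGroup (Fin k)), FreeGroup.lift b w ∈ F →
        e F (FreeGroup.lift b w) = FreeGroup.lift a w) ∧
      ∀ (F : Finset H) (g h : H), g ∈ F → h ∈ F → g * h ∈ F → e F (g * h) = e F g * e F h := by
  classical
  choose c hc using fun F : Finset H => hW F.card fun i => (F.equivFin.symm i : H)
  let e : Finset H → H → G := fun F h => if hh : h ∈ F then c F (F.equivFin ⟨h, hh⟩) else 1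
  have he : ∀ (F : Finset H) (h : H) (hh : h ∈ F), e F h = c F (F.equivFin ⟨h, hh⟩) := by
    intro F h hh
    simp only [e, dif_pos hh]
  have hd : ∀ (F : Finset H) (h : H) (hh : h ∈ F),
      ((F.equivFin.symm (F.equivFin ⟨h, hh⟩) : F) : H) = h := by
    intro F h hh
    simp
  refine ⟨e, fun F w hw => ?_, fun F g h hg hh hgh => ?_⟩
  · rw [he F _ hw]
    set i := F.equivFin ⟨FreeGroup.lift b w, hw⟩ with hi
    have h1 := (hc F (FreeGroup.map (Fin.castAdd F.card) w *
      (FreeGroup.of (Fin.natAdd k i))⁻¹)).mpr (by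
        rw [map_mul, lift_castAdd, map_inv, FreeGroup.lift_apply_of, Fin.append_right, hi, hd,
          mul_inv_cancel])
    rw [map_mul, lift_castAdd, map_inv, FreeGroup.lift_apply_of, Fin.append_right] at h1
    exact (mul_inv_eq_one.mp h1).symm
  · rw [he F _ hg, he F _ hh, he F _ hgh]
    set i := F.equivFin ⟨g, hg⟩ with hi
    set j := F.equivFin ⟨h, hh⟩ with hj
    set m := F.equivFin ⟨g * h, hgh⟩ with hm
    have h1 := (hc F (FreeGroup.of (Fin.natAdd k i) * FreeGroup.of (Fin.natAdd k j) *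
      (FreeGroup.of (Fin.natAdd k m))⁻¹)).mpr (by
        rw [map_mul, map_mul, map_inv, FreeGroup.lift_apply_of, FreeGroup.lift_apply_of,
          FreeGroup.lift_apply_of, Fin.append_right, Fin.append_right, Fin.append_right, hi, hj,
          hm, hd, hd, hd, mul_inv_cancel])
    rw [map_mul, map_mul, map_inv, FreeGroup.lift_apply_of, FreeGroup.lift_apply_of,
      FreeGroup.lift_apply_of, Fin.append_right, Fin.append_right, Fin.append_right] at h1
    exact (mul_inv_eq_one.mp h1).symm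

/-- transport of a vector state -/
theorem transport {e : Finset H → H → G}
    (he : ∀ (F : Finset H) (g h : H), g ∈ F → h ∈ F → g * h ∈ F → e F (g * h) = e F g * e F h)
    {E : Type} [NormedAddCommGroup E] [InnerProductSpace ℂ E] [CompleteSpace E]
    (π : G →* unitary (E →L[ℂ] E)) (ξ : E) :
    ∃ (E' : Type) (_ : NormedAddCommGroup E') (_ : InnerProductSpace ℂ E') (_ : CompleteSpace E')
      (σ : H →* unitary (E' →L[ℂ] E')) (η : E'), ∀ g h : H, ∀ g' h' : G,
      (∀ᶠ F in atTop, e F g = g') → (∀ᶠ F in atTop, e F h = h') →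
      ⟪(σ g : E' →L[ℂ] E') η, (σ h : E' →L[ℂ] E') η⟫_ℂ =
        ⟪(π g' : E →L[ℂ] E) ξ, (π h' : E →L[ℂ] E) ξ⟫_ℂ := by
  classical
  let κ : Finset H → H → H → ℂ := fun F g h =>
    ⟪(π (e F g) : E →L[ℂ] E) ξ, (π (e F h) : E →L[ℂ] E) ξ⟫_ℂ
  have hκb : ∀ F g h, κ F g h ∈ Metric.closedBall (0 : ℂ) (‖ξ‖ * ‖ξ‖) := by
    intro F g h
    rw [mem_closedBall_zero_iff]
    refine (norm_inner_le_norm _ _).trans ?_
    rw [Unitary.norm_map, Unitary.norm_map]
  let 𝒰 : Ultrafilter (Finset H) := Ultrafilter.of atTop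
  have h𝒰 : (𝒰 : Filter (Finset H)) ≤ atTop := Ultrafilter.of_le _
  have hlim : ∀ g h, ∃ z : ℂ, Tendsto (fun F => κ F g h) 𝒰 (𝓝 z) := by
    intro g h
    obtain ⟨z, -, hz⟩ := (isCompact_closedBall (0 : ℂ) (‖ξ‖ * ‖ξ‖)).ultrafilter_le_nhds
      (𝒰.map fun F => κ F g h) (by
        rw [le_principal_iff]
        exact Ultrafilter.mem_map.mpr (Filter.univ_mem' fun F => hκb F g h))
    exact ⟨z, hz⟩
  choose K hK using hlim
  have hherm : (Matrix.of K).IsHermitian := by
    ext g h
    rw [Matrix.conjTranspose_apply, Matrix.of_apply, Matrix.of_apply]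
    have h1 : Tendsto (fun F => star (κ F h g)) 𝒰 (𝓝 (star (K h g))) :=
      (continuous_star.tendsto _).comp (hK h g)
    have h2 : (fun F => star (κ F h g)) = fun F => κ F g h := by
      funext F
      exact inner_conj_symm _ _
    rw [h2] at h1
    exact tendsto_nhds_unique h1 (hK g h)
  have hsum : ∀ (x : H →₀ ℂ) (F : Finset H),
      (x.sum fun g c => x.sum fun h d => star c * κ F g h * d) =
        ((‖x.sum fun g c => c • (π (e F g) : E →L[ℂ] E) ξ‖ ^ 2 : ℝ) : ℂ) := by
    intro x F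
    have h0 := inner_self_eq_norm_sq_to_K (𝕜 := ℂ)
      (x.sum fun g c => c • (π (e F g) : E →L[ℂ] E) ξ)
    have h1 : ((‖x.sum fun g c => c • (π (e F g) : E →L[ℂ] E) ξ‖ ^ 2 : ℝ) : ℂ) =
        ⟪x.sum fun g c => c • (π (e F g) : E →L[ℂ] E) ξ,
          x.sum fun g c => c • (π (e F g) : E →L[ℂ] E) ξ⟫_ℂ := by
      rw [h0]
      push_cast
      rfl
    rw [h1]
    simp only [Finsupp.sum, sum_inner]
    refine Finset.sum_congr rfl fun g _ => ?_
    rw [inner_sum]
    refine Finset.sum_congr rfl fun h _ => ?_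
    rw [inner_smul_left, inner_smul_right]
    simp only [RCLike.star_def, κ]
    ring
  have hpsd : (Matrix.of K).PosSemidef := by
    refine ⟨hherm, fun x => ?_⟩
    have h1 : Tendsto (fun F => x.sum fun g c => x.sum fun h d => star c * κ F g h * d) 𝒰
        (𝓝 (x.sum fun g c => x.sum fun h d => star c * K g h * d)) := by
      refine tendsto_finsetSum _ fun g _ => tendsto_finsetSum _ fun h _ => ?_
      exact ((hK g h).const_mul _).mul_const _
    refine ge_of_tendsto' h1 fun F => ?_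
    rw [hsum]
    exact Complex.zero_le_real.mpr (sq_nonneg _)
  have hmem : ∀ g : H, ∀ᶠ F in (atTop : Filter (Finset H)), g ∈ F := by
    intro g
    filter_upwards [eventually_ge_atTop {g}] with F hF
    exact hF (Finset.mem_singleton_self g)
  have hinv : ∀ s g h : H, K (s * g) (s * h) = K g h := by
    intro s g h
    refine tendsto_nhds_unique (hK (s * g) (s * h)) ((hK g h).congr' ?_)
    refine h𝒰 ?_
    filter_upwards [hmem s, hmem g, hmem h, hmem (s * g), hmem (s * h)] with F h1 h2 h3 h4 h5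
    show κ F g h = κ F (s * g) (s * h)
    simp only [κ]
    rw [he F s g h1 h2 h4, he F s h h1 h3 h5, map_mul, map_mul]
    exact (Unitary.inner_map_map (π (e F s)) _ _).symm
  obtain ⟨E', i1, i2, i3, σ, v, hv, hσ⟩ := H697R3.NS.gns_kernel (G := H) (X := H) (Matrix.of K) hpsd
    (fun s g h => hinv s g h)
  refine ⟨E', i1, i2, i3, σ, v 1, ?_⟩
  intro g h g' h' hg hh
  rw [hσ, hσ, hv, Matrix.of_apply, smul_eq_mul, smul_eq_mul, mul_one, mul_one]
  refine tendsto_nhds_unique (hK g h) ((tendsto_const_nhds).congr' ?_)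
  refine h𝒰 ?_
  filter_upwards [hg, hh] with F h1 h2
  simp only [κ]
  rw [h1, h2]

/-- **The universal norm of an element with given coefficients depends only on the game.** -/
theorem unorm_le (hW : ∀ (l : ℕ) (d : Fin l → H), ∃ c : Fin l → G,
      Win G H 0 (k + l) (Fin.append a c) (Fin.append b d)) (P : FreeGroup (Fin k) →₀ ℂ) :
    unorm (P.mapDomain (FreeGroup.lift a)) ≤ unorm (P.mapDomain (FreeGroup.lift b)) := by
  classical
  obtain ⟨e, he1, he2⟩ := exists_answer hW
  refine csSup_le ⟨_, ℂ, inferInstance, inferInstance, inferInstance, 1, rfl⟩ ?_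
  rintro _ ⟨E, _, _, _, π, rfl⟩
  have hpos : 0 ≤ unorm (P.mapDomain (FreeGroup.lift b)) :=
    (norm_nonneg _).trans (le_unorm (P.mapDomain (FreeGroup.lift b)) (E := ℂ) 1)
  refine ContinuousLinearMap.opNorm_le_bound _ hpos fun ξ => ?_
  obtain ⟨E', _, _, _, σ, η, hη⟩ := transport he2 π ξ
  have hev : ∀ w : FreeGroup (Fin k), ∀ᶠ F in (atTop : Filter (Finset H)),
      e F (FreeGroup.lift b w) = FreeGroup.lift a w := by
    intro w
    filter_upwards [eventually_ge_atTop {FreeGroup.lift b w}] with F hF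
    exact he1 F w (hF (Finset.mem_singleton_self _))
  have hnη : ‖η‖ = ‖ξ‖ := by
    have h1 := hη (FreeGroup.lift b 1) (FreeGroup.lift b 1) _ _ (hev 1) (hev 1)
    rw [map_one, map_one, map_one, map_one] at h1
    have h2 : ⟪η, η⟫_ℂ = ⟪ξ, ξ⟫_ℂ := h1
    rw [inner_self_eq_norm_sq_to_K, inner_self_eq_norm_sq_to_K] at h2
    have h3 : ‖η‖ ^ 2 = ‖ξ‖ ^ 2 := by exact_mod_cast h2
    exact (sq_eq_sq₀ (norm_nonneg _) (norm_nonneg _)).mp h3
  have hsumG : ∀ {Γ : Type} [Group Γ] {E : Type} [NormedAddCommGroup E] [InnerProductSpace ℂ E]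
      [CompleteSpace E] (ρ : Γ →* unitary (E →L[ℂ] E)) (f : Fin k → Γ) (ζ : E),
      (((P.mapDomain (FreeGroup.lift f)).sum fun g c => c • (ρ g : E →L[ℂ] E)) : E →L[ℂ] E) ζ =
        ∑ w ∈ P.support, P w • (ρ (FreeGroup.lift f w) : E →L[ℂ] E) ζ := by
    intro Γ _ E _ _ _ ρ f ζ
    rw [Finsupp.sum_mapDomain_index (by simp) (by intro g c d; rw [add_smul])]
    simp only [Finsupp.sum, _root_.sum_apply, _root_.smul_apply]
  have hnorm : ‖((P.mapDomain (FreeGroup.lift a)).sum fun g c => c • (π g : E →L[ℂ] E)) ξ‖ =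
      ‖((P.mapDomain (FreeGroup.lift b)).sum fun g c => c • (σ g : E' →L[ℂ] E')) η‖ := by
    rw [hsumG π a ξ, hsumG σ b η]
    have h1 : ⟪∑ w ∈ P.support, P w • (π (FreeGroup.lift a w) : E →L[ℂ] E) ξ,
        ∑ w ∈ P.support, P w • (π (FreeGroup.lift a w) : E →L[ℂ] E) ξ⟫_ℂ =
        ⟪∑ w ∈ P.support, P w • (σ (FreeGroup.lift b w) : E' →L[ℂ] E') η,
        ∑ w ∈ P.support, P w • (σ (FreeGroup.lift b w) : E' →L[ℂ] E') η⟫_ℂ := by
      rw [sum_inner, sum_inner]
      refine Finset.sum_congr rfl fun g _ => ?_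
      rw [inner_sum, inner_sum]
      refine Finset.sum_congr rfl fun h _ => ?_
      rw [inner_smul_left, inner_smul_right, inner_smul_left, inner_smul_right,
        hη _ _ _ _ (hev g) (hev h)]
    rw [inner_self_eq_norm_sq_to_K, inner_self_eq_norm_sq_to_K] at h1
    refine (sq_eq_sq₀ (norm_nonneg _) (norm_nonneg _)).mp ?_
    exact_mod_cast h1
  rw [hnorm, ← hnη]
  refine (ContinuousLinearMap.le_opNorm _ _).trans ?_
  exact mul_le_mul_of_nonneg_right (le_unorm _ σ) (norm_nonneg _)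

theorem unorm_eq {P : FreeGroup (Fin k) →₀ ℂ} (h : Win G H 1 k a b) :
    unorm (P.mapDomain (FreeGroup.lift a)) = unorm (P.mapDomain (FreeGroup.lift b)) :=
  le_antisymm (unorm_le h.2 P) (unorm_le h.symm.2 P)

end transfer

end Pool.Agent.Q188.BF
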