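import Pool.Agent.Q188.BF.Logic
import Pool.Agent.Q188.BF.Norm

/-!
# Back-and-forth equivalent groups have elementarily equivalent universal group C*-algebras
-/

set_option autoImplicit false
set_option linter.unusedSectionVars false

open scoped ComplexConjugate

namespace Pool.Agent.Q188.BF

/-- `u` makes `A` the universal group C*-algebra of `G` -/
structure IsUniv {G A : Type} [Group G] [CStarAlgebra A] (u : G →* unitary A) : Prop where
  dense : Dense (Submodule.span ℂ (Set.range fun g => (u g : A)) : Set A)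
  norm_eq : ∀ x : G →₀ ℂ, ‖x.sum fun g c => c • (u g : A)‖ = unorm x

/-- the values of elements of the group algebra of a free group -/
noncomputable def pv {G A : Type} [Group G] [CStarAlgebra A] (u : G →* unitary A) {k : ℕ}
    (a : Fin k → G) : MonoidAlgebra ℂ (FreeGroup (Fin k)) →ₐ[ℂ] A :=
  MonoidAlgebra.lift ℂ A (FreeGroup (Fin k))
    (((unitary A).subtype.comp u).comp (FreeGroup.lift a))

section

variable {G A : Type} [Group G] [CStarAlgebra A] (u : G →* unitary A) {k : ℕ} (a : Fin k → G)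

lemma pv_single (w : FreeGroup (Fin k)) (c : ℂ) :
    pv u a (MonoidAlgebra.single w c) = c • (u (FreeGroup.lift a w) : A) := by
  simp [pv]

/-- the adjoint -/
noncomputable def St (Q : MonoidAlgebra ℂ (FreeGroup (Fin k))) :
    MonoidAlgebra ℂ (FreeGroup (Fin k)) :=
  Q.coeff.sum fun w c => MonoidAlgebra.single w⁻¹ (conj c)

lemma pv_eq (Q : MonoidAlgebra ℂ (FreeGroup (Fin k))) :
    pv u a Q = Q.coeff.sum fun w c => c • (u (FreeGroup.lift a w) : A) := by
  rw [pv, MonoidAlgebra.lift_apply]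
  rfl

lemma pv_St (Q : MonoidAlgebra ℂ (FreeGroup (Fin k))) : pv u a (St Q) = star (pv u a Q) := by
  classical
  have h1 : pv u a (St Q) = Q.coeff.sum fun w c =>
      (conj c) • (u (FreeGroup.lift a w⁻¹) : A) := by
    unfold St
    rw [Finsupp.sum, map_sum]
    refine Finset.sum_congr rfl fun w _ => ?_
    rw [pv_single]
  rw [h1, pv_eq, Finsupp.sum, Finsupp.sum, star_sum]
  refine Finset.sum_congr rfl fun w _ => ?_
  rw [star_smul, map_inv, map_inv]
  rfl

lemma norm_pv (hu : IsUniv u) (Q : MonoidAlgebra ℂ (FreeGroup (Fin k))) :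
    ‖pv u a Q‖ = unorm (Q.coeff.mapDomain (FreeGroup.lift a)) := by
  rw [← hu.norm_eq, Finsupp.sum_mapDomain_index (by simp) (by intro g c d; rw [add_smul]), pv_eq]

end

/-- values of terms -/
lemma Tm.exists_pv {G H A B : Type} [Group G] [Group H] [CStarAlgebra A] [CStarAlgebra B]
    (u : G →* unitary A) (u' : H →* unitary B) {n k : ℕ} (a : Fin k → G) (b : Fin k → H)
    (P : Fin n → MonoidAlgebra ℂ (FreeGroup (Fin k))) (t : Tm n) :
    ∃ Q, t.val (fun i => pv u a (P i)) = pv u a Q ∧
      t.val (fun i => pv u' b (P i)) = pv u' b Q := by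
  induction t with
  | var i => exact ⟨P i, rfl, rfl⟩
  | one => exact ⟨1, (map_one _).symm, (map_one _).symm⟩
  | add s t hs ht =>
    obtain ⟨Q, h1, h2⟩ := hs
    obtain ⟨Q', h3, h4⟩ := ht
    exact ⟨Q + Q', by simp only [Tm.val, h1, h3, map_add], by simp only [Tm.val, h2, h4, map_add]⟩
  | mul s t hs ht =>
    obtain ⟨Q, h1, h2⟩ := hs
    obtain ⟨Q', h3, h4⟩ := ht
    exact ⟨Q * Q', by simp only [Tm.val, h1, h3, map_mul], by simp only [Tm.val, h2, h4, map_mul]⟩
  | adj s hs =>
    obtain ⟨Q, h1, h2⟩ := hs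
    exact ⟨St Q, by simp only [Tm.val, h1, pv_St], by simp only [Tm.val, h2, pv_St]⟩
  | scal c s hs =>
    obtain ⟨Q, h1, h2⟩ := hs
    exact ⟨c • Q, by simp only [Tm.val, h1, map_smul], by simp only [Tm.val, h2, map_smul]⟩

/-- the formula has the same values at corresponding points -/
def Transf {n : ℕ} (φ : Fm n) : Prop :=
  ∀ (G H A B : Type) [Group G] [Group H] [CStarAlgebra A] [CStarAlgebra B]
    (u : G →* unitary A) (u' : H →* unitary B), IsUniv u → IsUniv u' →
    ∀ (m k : ℕ) (a : Fin k → G) (b : Fin k → H), Win G H (m + 1) k a b → φ.depth ≤ m →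
    ∀ P : Fin n → MonoidAlgebra ℂ (FreeGroup (Fin k)),
      φ.val A (fun i => pv u a (P i)) = φ.val B (fun i => pv u' b (P i))

/-- re-embedding -/
lemma pv_map {G A : Type} [Group G] [CStarAlgebra A] (u : G →* unitary A) {k l : ℕ}
    (a : Fin k → G) (c : Fin l → G) (Q : MonoidAlgebra ℂ (FreeGroup (Fin k))) :
    pv u (Fin.append a c) (MonoidAlgebra.mapDomainAlgHom ℂ ℂ
      (FreeGroup.map (Fin.castAdd l)) Q) = pv u a Q := by
  have h : (pv u (Fin.append a c)).comp (MonoidAlgebra.mapDomainAlgHom ℂ ℂ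
      (FreeGroup.map (Fin.castAdd l))) = pv u a := by
    refine MonoidAlgebra.algHom_ext (fun w => ?_) ?_
    · rw [AlgHom.comp_apply, MonoidAlgebra.mapDomainAlgHom_apply, MonoidAlgebra.mapDomain_single,
        pv_single, pv_single, lift_castAdd]
    · ext
  exact DFunLike.congr_fun h Q

/-- the answer to a point of the ball -/
lemma Transf.answer {n : ℕ} {φ : Fm (n + 1)} (ih : Transf φ) {G H A B : Type} [Group G] [Group H]
    [CStarAlgebra A] [CStarAlgebra B] (u : G →* unitary A) (u' : H →* unitary B) (hu : IsUniv u)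
    (hu' : IsUniv u') {m k : ℕ} (a : Fin k → G) (b : Fin k → H) (hW : Win G H (m + 1 + 1) k a b)
    (hm : φ.depth ≤ m) (P : Fin n → MonoidAlgebra ℂ (FreeGroup (Fin k))) {r : ℕ} {y : A}
    (hy : ‖y‖ ≤ r) {ε : ℝ} (hε : 0 < ε) :
    ∃ y' : B, ‖y'‖ ≤ r ∧ |φ.val A (Fin.cons y fun i => pv u a (P i)) -
      φ.val B (Fin.cons y' fun i => pv u' b (P i))| ≤ ε := by
  classical
  obtain ⟨d, hd, hdr, hdε⟩ := φ.approx (A := A)
    (Submodule.span ℂ (Set.range fun g => (u g : A)) : Set A) hu.dense
    (fun c d hd => Submodule.smul_mem _ _ hd) (fun i => pv u a (P i)) hy hε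
  obtain ⟨x, hx⟩ := (Finsupp.mem_span_range_iff_exists_finsupp).mp hd
  set S := x.support with hS
  let c : Fin S.card → G := fun i => (S.equivFin.symm i : G)
  obtain ⟨e, he⟩ := hW.1 S.card c
  let Q : MonoidAlgebra ℂ (FreeGroup (Fin (k + S.card))) :=
    ∑ i, MonoidAlgebra.single (FreeGroup.of (Fin.natAdd k i)) (x (c i))
  have hQ : pv u (Fin.append a c) Q = d := by
    simp only [Q, map_sum, pv_single, FreeGroup.lift_apply_of, Fin.append_right]
    rw [← hx, Finsupp.sum, ← hS, ← Finset.sum_coe_sort S]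
    exact Fintype.sum_equiv S.equivFin.symm _ _ fun i => rfl
  let P' : Fin (n + 1) → MonoidAlgebra ℂ (FreeGroup (Fin (k + S.card))) :=
    Fin.cons Q fun i => MonoidAlgebra.mapDomainAlgHom ℂ ℂ (FreeGroup.map (Fin.castAdd S.card)) (P i)
  have h1 : (fun i => pv u (Fin.append a c) (P' i)) = Fin.cons d fun i => pv u a (P i) := by
    funext i
    refine Fin.cases ?_ (fun j => ?_) i
    · simp only [P', Fin.cons_zero]
      exact hQ
    · simp only [P', Fin.cons_succ]
      exact pv_map u a c (P j)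
  have h2 : (fun i => pv u' (Fin.append b e) (P' i)) =
      Fin.cons (pv u' (Fin.append b e) Q) fun i => pv u' b (P i) := by
    funext i
    refine Fin.cases ?_ (fun j => ?_) i
    · simp only [P', Fin.cons_zero]
    · simp only [P', Fin.cons_succ]
      exact pv_map u' b e (P j)
  have h3 := ih G H A B u u' hu hu' m _ _ _ he hm P'
  rw [h1, h2] at h3
  refine ⟨pv u' (Fin.append b e) Q, ?_, ?_⟩
  · rw [norm_pv u' _ hu', ← unorm_eq he.one, ← norm_pv u _ hu, hQ]
    exact hdr
  · rw [← h3]
    exact hdε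

theorem transf {n : ℕ} (φ : Fm n) : Transf φ := by
  induction φ with
  | nrm t =>
    intro G H A B _ _ _ _ u u' hu hu' m k a b hW _ P
    obtain ⟨Q, h1, h2⟩ := t.exists_pv u u' a b P
    simp only [Fm.val]
    rw [h1, h2, norm_pv u _ hu, norm_pv u' _ hu', unorm_eq hW.one]
  | conn v φ ih =>
    intro G H A B _ _ _ _ u u' hu hu' m k a b hW hm P
    simp only [Fm.val]
    congr 1
    funext i
    refine ih i G H A B u u' hu hu' m k a b hW ?_ P
    exact (Finset.le_sup (f := fun i => (φ i).depth) (Finset.mem_univ i)).trans hm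
  | sup r φ ih =>
    intro G H A B _ _ _ _ u u' hu hu' m k a b hW hm P
    obtain ⟨m, rfl⟩ : ∃ m', m = m' + 1 := ⟨m - 1, by simp only [Fm.depth] at hm; omega⟩
    have hm' : φ.depth ≤ m := by simp only [Fm.depth] at hm; omega
    simp only [Fm.val]
    refine le_antisymm ?_ ?_
    · refine ciSup_le fun y => le_of_forall_pos_le_add fun ε hε => ?_
      obtain ⟨y', hy', h⟩ := ih.answer u u' hu hu' a b hW hm' P y.2 hε
      have h1 := le_ciSup (φ.bddAbove (A := B) (fun i => pv u' b (P i)) r) ⟨y', hy'⟩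
      have h2 := (abs_le.mp h).2
      simp only at h1
      linarith
    · refine ciSup_le fun y => le_of_forall_pos_le_add fun ε hε => ?_
      obtain ⟨y', hy', h⟩ := ih.answer u' u hu' hu b a hW.symm hm' P y.2 hε
      have h1 := le_ciSup (φ.bddAbove (A := A) (fun i => pv u a (P i)) r) ⟨y', hy'⟩
      have h2 := (abs_le.mp h).2
      simp only at h1
      linarith
  | inf r φ ih =>
    intro G H A B _ _ _ _ u u' hu hu' m k a b hW hm P
    obtain ⟨m, rfl⟩ : ∃ m', m = m' + 1 := ⟨m - 1, by simp only [Fm.depth] at hm; omega⟩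
    have hm' : φ.depth ≤ m := by simp only [Fm.depth] at hm; omega
    simp only [Fm.val]
    refine le_antisymm ?_ ?_
    · refine le_ciInf fun y => le_of_forall_pos_le_add fun ε hε => ?_
      obtain ⟨y', hy', h⟩ := ih.answer u' u hu' hu b a hW.symm hm' P y.2 hε
      have h1 := ciInf_le (φ.bddBelow (A := A) (fun i => pv u a (P i)) r) ⟨y', hy'⟩
      have h2 := (abs_le.mp h).1
      simp only at h1
      linarith
    · refine le_ciInf fun y => le_of_forall_pos_le_add fun ε hε => ?_
      obtain ⟨y', hy', h⟩ := ih.answer u u' hu hu' a b hW hm' P y.2 hε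
      have h1 := ciInf_le (φ.bddBelow (A := B) (fun i => pv u' b (P i)) r) ⟨y', hy'⟩
      have h2 := (abs_le.mp h).1
      simp only at h1
      linarith

/-- **The main theorem.** -/
theorem main {G H A B : Type} [Group G] [Group H] [CStarAlgebra A] [CStarAlgebra B]
    (h : ∀ n, Win G H n 0 Fin.elim0 Fin.elim0) (u : G →* unitary A) (u' : H →* unitary B)
    (hu : IsUniv u) (hu' : IsUniv u') (φ : Fm 0) :
    φ.val A Fin.elim0 = φ.val B Fin.elim0 := by
  have h1 := transf φ G H A B u u' hu hu' φ.depth 0 _ _ (h _) le_rfl Fin.elim0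
  have h2 : (fun i : Fin 0 => pv u Fin.elim0 (Fin.elim0 i)) = Fin.elim0 := by
    funext i
    exact i.elim0
  have h3 : (fun i : Fin 0 => pv u' Fin.elim0 (Fin.elim0 i)) = Fin.elim0 := by
    funext i
    exact i.elim0
  rw [h2, h3] at h1
  exact h1

end Pool.Agent.Q188.BF
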